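import Mathlib

open Set Filter Topology

namespace Pool.Agent.H.MP_45e0c4_an

variable {𝕜 : Type*} [RCLike 𝕜] {X : Type*} [NormedAddCommGroup X] [NormedSpace 𝕜 X]

theorem proj_bound [CompleteSpace X] {ι : Type} (e : ι → X) (a : X → ι → 𝕜) (ha : ∀ x, HasSum (fun n => a x n • e n) x)
    (hu : ∀ x b, HasSum (fun n => b n • e n) x → b = a x) :
    ∃ K : ℝ, ∀ (A : Finset ι) x, ‖∑ i ∈ A, a x i • e i‖ ≤ K * ‖x‖ := by
  have hadd : ∀ x y, a (x + y) = a x + a y := fun x y =>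
    (hu _ _ (by simpa [add_smul] using (ha x).add (ha y))).symm
  have hsm : ∀ (c : 𝕜) x, a (c • x) = c • a x := fun c x =>
    (hu _ _ (by simpa [smul_smul] using (ha x).const_smul c)).symm
  have hb : ∀ x, Memℓp (fun A : Finset ι => ∑ i ∈ A, a x i • e i) ⊤ := by
    intro x
    refine memℓp_infty ?_
    obtain ⟨s, hs⟩ := (ha x).summable.vanishing (Metric.ball_mem_nhds (0 : X) one_pos)
    classical
    refine ⟨∑ i ∈ s, ‖a x i • e i‖ + 1, ?_⟩
    rintro _ ⟨A, rfl⟩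
    simp only
    rw [← Finset.sum_inter_add_sum_sdiff A s]
    refine (norm_add_le _ _).trans (add_le_add ((norm_sum_le _ _).trans ?_) ?_)
    · exact Finset.sum_le_sum_of_subset_of_nonneg Finset.inter_subset_right fun _ _ _ => norm_nonneg _
    · exact (mem_ball_zero_iff.1 (hs _ Finset.sdiff_disjoint)).le
  let T : X →ₗ[𝕜] lp (fun _ : Finset ι => X) ⊤ :=
    { toFun := fun x => ⟨_, hb x⟩
      map_add' := fun x y => by
        ext A; simp [hadd, add_smul, Finset.sum_add_distrib]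
      map_smul' := fun c x => by
        ext A; simp [hsm, Finset.smul_sum, smul_smul] }
  have hT : ∀ x A, T x A = ∑ i ∈ A, a x i • e i := fun _ _ => rfl
  have hc : Continuous T := by
    refine T.continuous_of_seq_closed_graph fun u x y hx hy => ?_
    have hy' : ∀ A, Tendsto (fun k => T (u k) A) atTop (𝓝 (y A)) := fun A =>
      (((continuous_apply A).comp lp.uniformContinuous_coe.continuous).tendsto y).comp hy
    have h1 : ∀ i, ∃ b : 𝕜, b • e i = y {i} := by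
      intro i
      have hcl : IsClosed ((Submodule.span 𝕜 {e i} : Submodule 𝕜 X) : Set X) :=
        Submodule.closed_of_finiteDimensional _
      refine Submodule.mem_span_singleton.1 (hcl.mem_of_tendsto (hy' {i}) (Eventually.of_forall ?_))
      intro k
      rw [hT, Finset.sum_singleton]
      exact Submodule.smul_mem _ _ (Submodule.mem_span_singleton_self _)
    choose b hb' using h1
    have h2 : ∀ A : Finset ι, y A = ∑ i ∈ A, b i • e i := by
      intro A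
      refine tendsto_nhds_unique (hy' A) ?_
      simp only [hT]
      refine tendsto_finsetSum _ fun i _ => ?_
      rw [hb']
      simpa [hT] using hy' {i}
    have h3 : HasSum (fun n => b n • e n) x := by
      refine Metric.tendsto_nhds.2 fun ε hε => ?_
      obtain ⟨k, k1, k2⟩ := ((Metric.tendsto_nhds.1 hx (ε / 3) (by positivity)).and
        (Metric.tendsto_nhds.1 hy (ε / 3) (by positivity))).exists
      filter_upwards [Metric.tendsto_nhds.1 (ha (u k)) (ε / 3) (by positivity)] with A hA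
      have k3 : dist (T (u k) A) (y A) < ε / 3 := by
        rw [dist_eq_norm] at k2 ⊢
        exact lt_of_le_of_lt (lp.norm_apply_le_norm (by simp) (T (u k) - y) A) k2
      rw [hT, h2] at k3
      linarith [dist_triangle4 (∑ i ∈ A, b i • e i) (∑ i ∈ A, a (u k) i • e i) (u k) x,
        dist_comm (∑ i ∈ A, b i • e i) (∑ i ∈ A, a (u k) i • e i)]
    ext A
    rw [h2, hT, hu x b h3]
  refine ⟨‖(⟨T, hc⟩ : X →L[𝕜] _)‖, fun A x => ?_⟩
  exact (lp.norm_apply_le_norm (by simp) (T x) A).trans ((⟨T, hc⟩ : X →L[𝕜] _).le_opNorm x)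

lemma func (W : ℕ → Set X) (x0 : X) (hx0 : ‖x0‖ = 1)
    (H : ∀ n x, ‖x‖ = 1 → ∀ r < (2:ℝ), ∃ y ∈ W n, ‖y‖ ≤ 1 ∧ ∃ θ : 𝕜, ‖θ‖ = 1 ∧ r < ‖x + θ • y‖) :
    ∃ f : X →L[𝕜] 𝕜, ‖f‖ ≤ 1 ∧ ∀ n, ∃ y ∈ W n, ‖y‖ ≤ 1 ∧ 1 / 2 ≤ ‖f y‖ := by
  have step : ∀ n (s : X), ∃ v : X, (∃ y ∈ W n, ‖y‖ ≤ 1 ∧ ∃ θ : 𝕜, ‖θ‖ = 1 ∧ v = θ • y) ∧
      (1 ≤ ‖s‖ → ‖s‖ + 1 - (1 / 2) ^ (n + 2) ≤ ‖s + v‖) := by
    intro n s
    by_cases hs : 1 ≤ ‖s‖
    · have h0 : 0 < ‖s‖ := by linarith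
      have hn : ‖((‖s‖ : ℝ) : 𝕜)‖ = ‖s‖ := by simp
      obtain ⟨y, y1, y2, θ, t1, t2⟩ := H n (((‖s‖ : ℝ) : 𝕜)⁻¹ • s)
        (by rw [norm_smul, norm_inv, hn, inv_mul_cancel₀ h0.ne']) (2 - (1 / 2) ^ (n + 2) / ‖s‖)
        (by have : 0 < (1 / 2 : ℝ) ^ (n + 2) / ‖s‖ := by positivity
            linarith)
      refine ⟨θ • y, ⟨y, y1, y2, θ, t1, rfl⟩, fun _ => ?_⟩
      have hv : ‖θ • y‖ ≤ 1 := by rw [norm_smul, t1, one_mul]; exact y2
      generalize θ • y = v at *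
      have hne : ((‖s‖ : ℝ) : 𝕜) ≠ 0 := by rw [← norm_pos_iff, hn]; exact h0
      have e1 : ((‖s‖ : ℝ) : 𝕜) • (((‖s‖ : ℝ) : 𝕜)⁻¹ • s + v) = (s + v) + ((‖s‖ - 1 : ℝ) : 𝕜) • v := by
        rw [smul_add, smul_inv_smul₀ hne]; push_cast; module
      have e2 := norm_add_le (s + v) (((‖s‖ - 1 : ℝ) : 𝕜) • v)
      rw [← e1, norm_smul, hn, norm_smul, RCLike.norm_ofReal, abs_of_nonneg (by linarith)] at e2
      have e3 := mul_lt_mul_of_pos_left t2 h0
      rw [mul_sub, mul_div_cancel₀ _ h0.ne'] at e3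
      nlinarith
    · obtain ⟨y, y1, y2, θ, t1, -⟩ := H n x0 hx0 0 (by norm_num)
      exact ⟨θ • y, ⟨y, y1, y2, θ, t1, rfl⟩, fun h => absurd h hs⟩
  choose v hv1 hv2 using step
  let s : ℕ → X := fun n => Nat.rec x0 (fun n s => s + v n s) n
  have hs : ∀ n, s (n + 1) = s n + v n (s n) := fun _ => rfl
  have hs1 : ∀ n : ℕ, (n : ℝ) + 1 / 2 + (1 / 2) ^ (n + 1) ≤ ‖s n‖ ∧ 1 ≤ ‖s n‖ := by
    intro n
    induction n with
    | zero => show _ ≤ ‖x0‖ ∧ _ ≤ ‖x0‖; rw [hx0]; norm_num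
    | succ n ih =>
      have h1 := hv2 n (s n) ih.2
      rw [← hs] at h1
      have h2 : (1 / 2 : ℝ) ^ (n + 1) = 2 * (1 / 2) ^ (n + 2) := by ring
      have h3 : (1 / 2 : ℝ) ^ (n + 2) ≤ 1 := pow_le_one₀ (by norm_num) (by norm_num)
      push_cast
      constructor <;> linarith [ih.1, ih.2]
  have hsum : ∀ n, s n = x0 + ∑ k ∈ Finset.range n, v k (s k) := by
    intro n
    induction n with
    | zero => simp [s]
    | succ n ih => rw [Finset.sum_range_succ, ← add_assoc, ← ih, hs]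
  have hvn : ∀ k, ‖v k (s k)‖ ≤ 1 := by
    intro k
    obtain ⟨y, -, y2, θ, t1, e⟩ := hv1 k (s k)
    rw [e, norm_smul, t1, one_mul]; exact y2
  have := FiniteDimensional.proper_rclike 𝕜 𝕜
  let t : ℕ → Set (WeakDual 𝕜 X) := fun n => WeakDual.toStrongDual ⁻¹' Metric.closedBall 0 1 ∩
    ⋂ k ∈ Finset.range n, {f | 1 / 2 ≤ RCLike.re (f (v k (s k)))}
  obtain ⟨f, hf⟩ := IsCompact.nonempty_iInter_of_sequence_nonempty_isCompact_isClosed t
    (fun n f hf => ⟨hf.1, mem_iInter₂.2 fun k hk =>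
      mem_iInter₂.1 hf.2 k (Finset.mem_range.2 (Nat.lt_succ_of_lt (Finset.mem_range.1 hk)))⟩)
    (fun n => by
      obtain ⟨g, g1, g2⟩ := exists_dual_vector'' 𝕜 (s n)
      refine ⟨StrongDual.toWeakDual g, by simpa using g1, mem_iInter₂.2 fun k hk => ?_⟩
      show 1 / 2 ≤ RCLike.re (g (v k (s k)))
      have hle : ∀ z, ‖z‖ ≤ 1 → RCLike.re (g z) ≤ 1 := fun z hz =>
        (RCLike.re_le_norm _).trans ((g.unit_le_opNorm z hz).trans g1)
      have h1 : RCLike.re (g (s n)) = ‖s n‖ := by rw [g2]; simp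
      rw [hsum n, map_add, map_sum, map_add, map_sum, ← hsum n,
        ← Finset.add_sum_erase _ _ hk] at h1
      have h2 : ∑ j ∈ (Finset.range n).erase k, RCLike.re (g (v j (s j))) ≤ (n : ℝ) - 1 := by
        refine (Finset.sum_le_card_nsmul _ _ 1 fun j _ => hle _ (hvn j)).trans ?_
        rw [Finset.card_erase_of_mem hk, Finset.card_range, nsmul_eq_mul, mul_one,
          Nat.cast_pred (by have := Finset.mem_range.1 hk; omega)]
      have h3 : (0:ℝ) < (1 / 2) ^ (n + 1) := by positivity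
      linarith [hle x0 hx0.le, (hs1 n).1])
    (by simpa [t] using WeakDual.isCompact_closedBall (𝕜 := 𝕜) (E := X) 0 1)
    (fun n => (WeakDual.isClosed_closedBall 0 1).inter (isClosed_biInter fun k _ =>
      isClosed_le continuous_const (RCLike.continuous_re.comp (WeakDual.eval_continuous _))))
  refine ⟨WeakDual.toStrongDual f, by simpa using (mem_iInter.1 hf 0).1, fun n => ?_⟩
  obtain ⟨y, y1, y2, θ, t1, e⟩ := hv1 n (s n)
  refine ⟨y, y1, y2, ?_⟩
  have h1 : 1 / 2 ≤ RCLike.re (WeakDual.toStrongDual f (v n (s n))) :=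
    mem_iInter₂.1 (mem_iInter.1 hf (n + 1)).2 n (Finset.self_mem_range_succ n)
  have h2 := h1.trans (RCLike.re_le_norm _)
  rwa [e, map_smul, norm_smul, t1, one_mul] at h2

lemma sum_abs_le {A : Finset ℕ} {c : ℕ → ℝ} {C : ℝ} (h : ∀ B ⊆ A, |∑ i ∈ B, c i| ≤ C) :
    ∑ i ∈ A, |c i| ≤ 2 * C := by
  classical
  rw [← Finset.sum_filter_add_sum_filter_not A (fun i => 0 ≤ c i)]
  have h1 := h _ (Finset.filter_subset (fun i => 0 ≤ c i) A)
  have h2 := h _ (Finset.filter_subset (fun i => ¬ 0 ≤ c i) A)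
  rw [Finset.sum_congr rfl fun i hi => abs_of_nonneg (Finset.mem_filter.1 hi).2,
    Finset.sum_congr rfl fun i hi => abs_of_neg (not_le.1 (Finset.mem_filter.1 hi).2),
    Finset.sum_neg_distrib]
  linarith [le_abs_self (∑ i ∈ A with 0 ≤ c i, c i), neg_le_abs (∑ i ∈ A with ¬ 0 ≤ c i, c i)]

lemma sum_norm_le {A : Finset ℕ} {c : ℕ → 𝕜} {C : ℝ} (h : ∀ B ⊆ A, ‖∑ i ∈ B, c i‖ ≤ C) :
    ∑ i ∈ A, ‖c i‖ ≤ 4 * C := by
  have h1 := sum_abs_le (A := A) (c := fun i => RCLike.re (c i)) (C := C) fun B hB => by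
    rw [← map_sum]; exact (RCLike.abs_re_le_norm _).trans (h B hB)
  have h2 := sum_abs_le (A := A) (c := fun i => RCLike.im (c i)) (C := C) fun B hB => by
    rw [← map_sum]; exact (RCLike.abs_im_le_norm _).trans (h B hB)
  have h3 : ∑ i ∈ A, ‖c i‖ ≤ ∑ i ∈ A, (|RCLike.re (c i)| + |RCLike.im (c i)|) :=
    Finset.sum_le_sum fun i _ => by
      conv_lhs => rw [← RCLike.re_add_im (c i)]
      refine (norm_add_le _ _).trans (add_le_add (by simp) ?_)
      rw [norm_mul, RCLike.norm_ofReal]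
      exact mul_le_of_le_one_right (abs_nonneg _) (by rw [RCLike.norm_I]; split_ifs <;> norm_num)
  rw [Finset.sum_add_distrib] at h3
  linarith

end Pool.Agent.H.MP_45e0c4_an
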