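import Mathlib
import Pool.Agent.H.MP_45e0c4_an.A

open Set Filter Topology

namespace Pool.Agent.H.MP_45e0c4_an

variable {𝕜 : Type*} [RCLike 𝕜] {X : Type*} [NormedAddCommGroup X] [NormedSpace 𝕜 X]

lemma to_sphere {w z : X} (hw : ‖w‖ ≤ 1) (hz : z ≠ 0) : ∃ t : 𝕜, ‖w + t • z‖ = 1 := by
  have h0 := norm_pos_iff.2 hz
  have hc : Continuous fun t : ℝ => ‖w + (t : 𝕜) • z‖ := by
    have := RCLike.continuous_ofReal (K := 𝕜)
    fun_prop
  have h1 : (1:ℝ) ∈ Icc ‖w + ((0:ℝ) : 𝕜) • z‖ ‖w + ((2 / ‖z‖ : ℝ) : 𝕜) • z‖ := by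
    refine ⟨by simpa using hw, ?_⟩
    have h2 := norm_sub_le (w + ((2 / ‖z‖ : ℝ) : 𝕜) • z) w
    rw [add_sub_cancel_left, norm_smul, RCLike.norm_ofReal, abs_of_pos (by positivity),
      div_mul_cancel₀ _ h0.ne'] at h2
    linarith
  obtain ⟨t, -, ht⟩ := intermediate_value_Icc (show (0:ℝ) ≤ 2 / ‖z‖ by positivity) hc.continuousOn h1
  exact ⟨t, ht⟩

lemma cancel (p q : 𝕜) : ∃ t s : 𝕜, ‖t‖ + ‖s‖ = 1 ∧ t * p + s * q = 0 := by
  by_cases h : ‖p‖ + ‖q‖ = 0
  · have hp : p = 0 := norm_eq_zero.1 (by linarith [norm_nonneg p, norm_nonneg q])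
    exact ⟨1, 0, by simp, by simp [hp]⟩
  · have h0 : 0 < ‖p‖ + ‖q‖ := lt_of_le_of_ne (by positivity) (Ne.symm h)
    refine ⟨q / ((‖p‖ + ‖q‖ : ℝ) : 𝕜), -p / ((‖p‖ + ‖q‖ : ℝ) : 𝕜), ?_, by ring⟩
    rw [norm_div, norm_div, norm_neg, RCLike.norm_ofReal, abs_of_pos h0]
    field_simp; ring

theorem main [CompleteSpace X] (e : ℕ → X)
    (he : ∀ x : X, ∃! a : ℕ → 𝕜, HasSum (fun n => a n • e n) x)
    (H : ∀ x : X, ‖x‖ = 1 → ∀ U : Set (WeakSpace 𝕜 X), IsOpen U →
      (∃ y : X, ‖y‖ = 1 ∧ toWeakSpace 𝕜 X y ∈ U) → ∀ r < (2:ℝ),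
        ∃ y : X, toWeakSpace 𝕜 X y ∈ U ∧ ‖y‖ ≤ 1 ∧ ∃ θ : 𝕜, ‖θ‖ = 1 ∧ r < ‖x + θ • y‖) : False := by
  classical
  choose a ha hu using he
  beta_reduce at ha hu
  obtain ⟨K, hK⟩ := proj_bound e a ha hu
  have hadd : ∀ x y, a (x + y) = a x + a y := fun x y =>
    (hu _ _ (by simpa [add_smul] using (ha x).add (ha y))).symm
  have hsm : ∀ (c : 𝕜) x, a (c • x) = c • a x := fun c x =>
    (hu _ _ (by simpa [smul_smul] using (ha x).const_smul c)).symm
  have hfin : ∀ (A : Finset ℕ) (c : ℕ → 𝕜), a (∑ i ∈ A, c i • e i) = fun i => if i ∈ A then c i else 0 := by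
    intro A c
    refine (hu _ _ ?_).symm
    have := hasSum_sum_of_ne_finset_zero (f := fun i => (if i ∈ A then c i else 0) • e i) (s := A)
      (L := .unconditional ℕ) (fun i hi => by simp [hi])
    rwa [Finset.sum_congr rfl fun i hi => by rw [if_pos hi]] at this
  have hne : ∀ i, e i ≠ 0 := by
    intro i hi
    have h1 := congrFun (hfin {i} fun _ => 1) i
    have h2 := congrFun (hfin ∅ fun _ => 1) i
    simp [hi] at h1 h2
    exact one_ne_zero (h1.symm.trans h2)
  let c : ℕ → X →L[𝕜] 𝕜 := fun i => LinearMap.mkContinuous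
    { toFun := fun x => a x i
      map_add' := fun x y => by simp [hadd]
      map_smul' := fun c x => by simp [hsm] } (K / ‖e i‖) (fun x => by
      have := hK {i} x
      rw [Finset.sum_singleton, norm_smul] at this
      rw [div_mul_eq_mul_div, le_div_iff₀ (norm_pos_iff.2 (hne i))]
      exact this)
  let U : X → ℕ → ℕ → Set (WeakSpace 𝕜 X) := fun d N m =>
    {y | ‖∑ i ∈ Finset.range N, a ((toWeakSpace 𝕜 X).symm y) i • e i - d‖ < 1 / ((m:ℝ) + 1)}
  have hopen : ∀ d N m, IsOpen (U d N m) := by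
    intro d N m
    refine isOpen_lt (Continuous.norm (Continuous.sub ?_ continuous_const)) continuous_const
    refine continuous_finsetSum _ fun i _ => Continuous.smul ?_ continuous_const
    exact WeakBilin.eval_continuous (topDualPairing 𝕜 X).flip (c i)
  obtain ⟨D, hD, hY⟩ := (countable_range e).isSeparable.span (R := 𝕜)
  obtain ⟨u, hu'⟩ := (hD.insert 0).exists_eq_range (insert_nonempty _ _)
  obtain ⟨en, hen⟩ := exists_surjective_nat (ℕ × ℕ × ℕ)
  obtain ⟨t0, ht0⟩ := to_sphere (𝕜 := 𝕜) (w := (0 : X)) (by simp) (hne 0)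
  let U' : ℕ → Set (WeakSpace 𝕜 X) := fun n =>
    if ∃ y : X, ‖y‖ = 1 ∧ toWeakSpace 𝕜 X y ∈ U (u (en n).1) (en n).2.1 (en n).2.2 then
      U (u (en n).1) (en n).2.1 (en n).2.2 else univ
  obtain ⟨f, f1, f2⟩ := func (𝕜 := 𝕜) (fun n => {y | toWeakSpace 𝕜 X y ∈ U' n}) _ ht0 (by
    intro n x hx r hr
    refine H x hx (U' n) ?_ ?_ r hr
    · simp only [U']; split_ifs
      exacts [hopen _ _ _, isOpen_univ]
    · simp only [U']; split_ifs with h
      exacts [h, ⟨x, hx, mem_univ _⟩])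
  have near : ∀ (N M : ℕ) (b : ℕ → 𝕜), ‖∑ i ∈ Finset.Ico N M, b i • e i‖ ≤ 1 → ∀ η > (0:ℝ), ∃ y : X,
      ‖y‖ ≤ 1 ∧ 1 / 2 ≤ ‖f y‖ ∧
        ‖∑ i ∈ Finset.range M, a y i • e i - ∑ i ∈ Finset.Ico N M, b i • e i‖ < η := by
    intro N M b hb η hη
    set w := ∑ i ∈ Finset.Ico N M, b i • e i with hw
    obtain ⟨m, hm⟩ := exists_nat_one_div_lt (half_pos hη)
    have hwY : w ∈ closure D := hY (Submodule.sum_mem _ fun i _ =>
      Submodule.smul_mem _ _ (Submodule.subset_span (mem_range_self i)))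
    obtain ⟨d, d1, d2⟩ := Metric.mem_closure_iff.1 hwY (1 / ((m:ℝ) + 1)) (by positivity)
    obtain ⟨j, rfl⟩ : d ∈ range u := hu' ▸ mem_insert_of_mem _ d1
    obtain ⟨n, hn⟩ := hen (j, M, m)
    obtain ⟨y, y1, y2, y3⟩ := f2 n
    rw [dist_eq_norm] at d2
    have hex : ∃ y : X, ‖y‖ = 1 ∧ toWeakSpace 𝕜 X y ∈ U (u j) M m := by
      obtain ⟨t, ht⟩ := to_sphere (𝕜 := 𝕜) hb (hne M)
      refine ⟨_, ht, ?_⟩
      have h1 : ∑ i ∈ Finset.range M, a (w + t • e M) i • e i = w := by
        have h2 := hfin {M} fun _ => t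
        rw [Finset.sum_singleton] at h2
        rw [hadd, h2, hw, hfin, ← Finset.sum_subset (s₁ := Finset.Ico N M)
          (fun i hi => Finset.mem_range.2 (Finset.mem_Ico.1 hi).2)]
        · refine Finset.sum_congr rfl fun i hi => ?_
          simp only [Pi.add_apply, if_pos hi, Finset.mem_singleton, (Finset.mem_Ico.1 hi).2.ne]
          simp
        · intro i h3 h4
          simp only [Pi.add_apply, if_neg h4, Finset.mem_singleton, (Finset.mem_range.1 h3).ne]
          simp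
      simpa only [U, mem_ofPred_eq, LinearEquiv.symm_apply_apply, h1] using d2
    simp only [mem_ofPred_eq, U', hn, if_pos hex] at y1
    simp only [mem_ofPred_eq, U, LinearEquiv.symm_apply_apply] at y1
    refine ⟨y, y2, y3, ?_⟩
    have := norm_sub_le_norm_sub_add_norm_sub (∑ i ∈ Finset.range M, a y i • e i) (u j) w
    rw [norm_sub_rev (u j)] at this
    linarith
  have hV : ∀ (A : Finset ℕ) (b : ℕ → 𝕜), ‖∑ i ∈ A, b i • e i‖ ≤ 1 →
      ∑ i ∈ A, ‖b i * f (e i)‖ ≤ 4 * |K| := by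
    intro A b hb
    refine sum_norm_le fun B hB => ?_
    have h1 := hK B (∑ i ∈ A, b i • e i)
    have h0 : ∑ i ∈ B, a (∑ i ∈ A, b i • e i) i • e i = ∑ i ∈ B, b i • e i :=
      Finset.sum_congr rfl fun i hi => by simp only [hfin, if_pos (hB hi)]
    rw [h0] at h1
    have h2 : ∑ i ∈ B, b i * f (e i) = f (∑ i ∈ B, b i • e i) := by simp
    rw [h2]
    refine (f.le_opNorm _).trans ((mul_le_of_le_one_left (norm_nonneg _) f1).trans (h1.trans ?_))
    exact (mul_le_mul_of_nonneg_right (le_abs_self K) (norm_nonneg _)).trans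
      (mul_le_of_le_one_right (abs_nonneg K) hb)
  have grow : ∀ k : ℕ, ∀ N, ∃ M ≥ N, ∃ b : ℕ → 𝕜, ‖∑ i ∈ Finset.Ico N M, b i • e i‖ ≤ 1 ∧
      (k : ℝ) / 4 ≤ ∑ i ∈ Finset.Ico N M, ‖b i * f (e i)‖ := by
    intro k
    induction k with
    | zero => intro N; exact ⟨N, le_rfl, 0, by simp, by simp⟩
    | succ k ih =>
      intro N
      obtain ⟨M, hM, b, b1, b0⟩ := ih N
      obtain ⟨M', hM', b', b1', b2'⟩ := ih M
      obtain ⟨t, s, ts1, ts2⟩ := cancel (f (∑ i ∈ Finset.Ico N M, b i • e i))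
        (f (∑ i ∈ Finset.Ico M M', b' i • e i))
      let b2 : ℕ → 𝕜 := fun i => if i < M then t * b i else s * b' i
      have w1 : ∑ i ∈ Finset.Ico N M', b2 i • e i =
          t • ∑ i ∈ Finset.Ico N M, b i • e i + s • ∑ i ∈ Finset.Ico M M', b' i • e i := by
        rw [← Finset.sum_Ico_consecutive _ hM hM', Finset.smul_sum, Finset.smul_sum]
        congr 1
        · exact Finset.sum_congr rfl fun i hi => by
            simp only [b2, if_pos (Finset.mem_Ico.1 hi).2, mul_smul]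
        · exact Finset.sum_congr rfl fun i hi => by
            simp only [b2, if_neg (not_lt.2 (Finset.mem_Ico.1 hi).1), mul_smul]
      have w2 : ‖∑ i ∈ Finset.Ico N M', b2 i • e i‖ ≤ 1 := by
        rw [w1]
        refine (norm_add_le _ _).trans ?_
        rw [norm_smul, norm_smul]
        nlinarith [norm_nonneg t, norm_nonneg s]
      have w3 : f (∑ i ∈ Finset.Ico N M', b2 i • e i) = 0 := by
        rw [w1, map_add, map_smul, map_smul]; exact ts2
      have w4 : (k : ℝ) / 4 ≤ ∑ i ∈ Finset.Ico N M', ‖b2 i * f (e i)‖ := by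
        have : ∑ i ∈ Finset.Ico N M', ‖b2 i * f (e i)‖ = ‖t‖ * ∑ i ∈ Finset.Ico N M, ‖b i * f (e i)‖ +
            ‖s‖ * ∑ i ∈ Finset.Ico M M', ‖b' i * f (e i)‖ := by
          rw [← Finset.sum_Ico_consecutive _ hM hM', Finset.mul_sum, Finset.mul_sum]
          congr 1
          · exact Finset.sum_congr rfl fun i hi => by
              simp only [b2, if_pos (Finset.mem_Ico.1 hi).2, mul_assoc, norm_mul]
          · exact Finset.sum_congr rfl fun i hi => by
              simp only [b2, if_neg (not_lt.2 (Finset.mem_Ico.1 hi).1), mul_assoc, norm_mul]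
        rw [this]
        have k1 := mul_le_mul_of_nonneg_left b0 (norm_nonneg t)
        have k2 := mul_le_mul_of_nonneg_left b2' (norm_nonneg s)
        have k3 : ‖t‖ * ((k:ℝ) / 4) + ‖s‖ * ((k:ℝ) / 4) = (k:ℝ) / 4 := by rw [← add_mul, ts1, one_mul]
        linarith
      set η : ℝ := 1 / (2 * k + 12) with hη
      have hη0 : 0 < η := by positivity
      obtain ⟨y, y1, y2, y3⟩ := near N M' b2 w2 η hη0
      obtain ⟨L, l1, l2⟩ := ((Metric.tendsto_nhds.1 (ha y).tendsto_sum_nat η hη0).and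
        (eventually_ge_atTop M')).exists
      rw [dist_eq_norm] at l1
      generalize hw : ∑ i ∈ Finset.Ico N M', b2 i • e i = w at *
      have z1 : ∑ i ∈ Finset.Ico M' L, a y i • e i =
          ∑ i ∈ Finset.range L, a y i • e i - ∑ i ∈ Finset.range M', a y i • e i :=
        Finset.sum_Ico_eq_sub _ l2
      generalize ∑ i ∈ Finset.range L, a y i • e i = p at *
      generalize ∑ i ∈ Finset.range M', a y i • e i = q at *
      have hf : ∀ z, ‖f z‖ ≤ ‖z‖ := fun z =>
        (f.le_opNorm z).trans (mul_le_of_le_one_left (norm_nonneg _) f1)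
      have z2 : 1 / 2 - 2 * η ≤ ∑ i ∈ Finset.Ico M' L, ‖a y i * f (e i)‖ := by
        refine le_trans ?_ (norm_sum_le _ _)
        have h2 : ∑ i ∈ Finset.Ico M' L, a y i * f (e i) = f (p - q) := by rw [← z1]; simp
        have h3 : f y = f (p - q) - f (p - y) + f (q - w) := by simp [w3]
        have h4 := norm_add_le (f (p - q) - f (p - y)) (f (q - w))
        have h5 := norm_sub_le (f (p - q)) (f (p - y))
        rw [h2]; rw [← h3] at h4
        linarith [hf (p - y), hf (q - w)]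
      let ρ : 𝕜 := (((1 + 2 * η)⁻¹ : ℝ) : 𝕜)
      have hρ : ‖ρ‖ = (1 + 2 * η)⁻¹ := by
        simp only [ρ]; rw [RCLike.norm_ofReal, abs_of_pos (by positivity)]
      refine ⟨L, by omega, fun i => ρ * if i < M' then b2 i else a y i, ?_, ?_⟩
      · have : ∑ i ∈ Finset.Ico N L, (ρ * if i < M' then b2 i else a y i) • e i =
            ρ • (y + (p - y) - (q - w)) := by
          rw [show y + (p - y) - (q - w) = w + (p - q) by abel, ← z1, ← hw,
            ← Finset.sum_Ico_consecutive _ (hM.trans hM') l2, smul_add, Finset.smul_sum,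
            Finset.smul_sum]
          congr 1
          · exact Finset.sum_congr rfl fun i hi => by
              simp only [if_pos (Finset.mem_Ico.1 hi).2, mul_smul]
          · exact Finset.sum_congr rfl fun i hi => by
              simp only [if_neg (not_lt.2 (Finset.mem_Ico.1 hi).1), mul_smul]
        rw [this, norm_smul, hρ, inv_mul_le_iff₀ (by positivity)]
        linarith [norm_sub_le (y + (p - y)) (q - w), norm_add_le y (p - y)]
      · have : ∑ i ∈ Finset.Ico N L, ‖(ρ * if i < M' then b2 i else a y i) * f (e i)‖ =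
            ‖ρ‖ * (∑ i ∈ Finset.Ico N M', ‖b2 i * f (e i)‖ +
              ∑ i ∈ Finset.Ico M' L, ‖a y i * f (e i)‖) := by
          rw [← Finset.sum_Ico_consecutive _ (hM.trans hM') l2, mul_add, Finset.mul_sum,
            Finset.mul_sum]
          congr 1
          · exact Finset.sum_congr rfl fun i hi => by
              simp only [if_pos (Finset.mem_Ico.1 hi).2, mul_assoc, norm_mul]
          · exact Finset.sum_congr rfl fun i hi => by
              simp only [if_neg (not_lt.2 (Finset.mem_Ico.1 hi).1), mul_assoc, norm_mul]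
        rw [this, hρ, le_inv_mul_iff₀ (by positivity)]
        have h1 : η * (2 * k + 12) = 1 := by rw [hη]; field_simp
        push_cast
        nlinarith
  obtain ⟨k, hk⟩ := exists_nat_gt (16 * |K|)
  obtain ⟨M, -, b, b1, b2⟩ := grow k 0
  linarith [hV _ b b1]

end Pool.Agent.H.MP_45e0c4_an
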